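import Pool.Agent.H12Orbit

set_option autoImplicit false

namespace Pool.Agent.Results.MP_53fdf7_co.KOrbit

open Pool.Agent.H12Orbit

/-- **Main theorem.** For all `k ≥ 1` and `n ≥ 3` there is a `k`-orbit abstract `n`-polytope none
of whose rank-2 sections is a digon. -/
theorem result (k n : ℕ) (hk : 1 ≤ k) (hn : 3 ≤ n) :
    ∃ (F : Type) (_ : PartialOrder F) (rk : F → ℤ),
      IsPolytope n rk ∧ NoDigon rk ∧ Orbits k F :=
  main k n hk hn

end Pool.Agent.Results.MP_53fdf7_co.KOrbit
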